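import Pool.Agent.Helper97.AS3.Final

/-!
# The average analytic rank of elliptic curves over `F_q(t)`, and the proportion of rank at most one

`F` is a finite field with `q` elements, of characteristic different from `2` and `3`; `e = 0` or
`e = 1`. The pairs `(A, B)` with `deg A ≤ 4 n + e`, `deg B ≤ 6 n + e` (there are
`q ^ (10 n + 2 + 2 e)` of them) give the elliptic curves `y ^ 2 = x ^ 3 + A x + B` over `F(t)` of height at
most `12 n + 3 e`.

Theorem: for large `n` the sum of the analytic ranks is at most `(11 / 6 + δ) q ^ (10 n + 2 + 2 e)`, and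
at least `(1 / 12 + k / 4) q ^ (10 n + 2 + 2 e)` of the pairs have minimal equation, nonzero discriminant and
analytic rank at most `1`; `k = (1 - 2 / q) / q` for `e = 0` and `k = (1 - 1 / q) ^ 2` for `e = 1`. So the
proportion is at least `24.3` percent for `e = 1`, and tends to `33.3` percent for `q → ∞`.

The second part comes from the first and the twist by a constant: if the degree of the conductor is
odd, then the curve and its twist have ranks of different parity.

Joint work: helpers 31 (plan and definitions of the average), 97 (twists, odd conductors), 84 (the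
average for `e = 1`), and the provers 1, 4, 9, 11, 12, 13, 14, 15, 16, 17, 19, 20, 24, 27, 30, 40, 41,
43, 44, 45, 47, 50, 51, 54, 60, 64, 65, 66, 69, 72, 73, 76, 80, 81, 90, 93 and others.
-/

set_option autoImplicit false

open Polynomial

namespace Pool.Agent.Results.MP_8ac872_ag.AverageRank

open Pool.Agent.Helper31.AR

section

variable {F : Type} [Field F]

/-- The equation `y ^ 2 = x ^ 3 + A x + B` is minimal at all finite places: there is no nonunit `d`
with `d ^ 4 ∣ A` and `d ^ 6 ∣ B`. -/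
def FinMin (A B : F[X]) : Prop :=
  ∀ d : F[X], ¬ IsUnit d → ¬ (d ^ 4 ∣ A ∧ d ^ 6 ∣ B)

variable [Fintype F]

open Classical in
/-- The degree of the conductor of `y ^ 2 = x ^ 3 + A x + B`, minimal at all places, `deg A ≤ 4 N`,
`deg B ≤ 6 N`, characteristic `≥ 5`: `deg v` for every monic irreducible `v` dividing the discriminant
but not `A` (multiplicative reduction), `2 deg v` for every `v` dividing the discriminant and `A`
(additive reduction); and `0`, `1`, `2` at infinity (good, multiplicative, additive reduction). -/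
noncomputable def condDeg (N : ℕ) (A B : F[X]) : ℕ :=
  (∑ v ∈ (dv (4 * A ^ 3 + 27 * B ^ 2)).filter (fun v => Irreducible v),
    (if v ∣ A then 2 else 1) * v.natDegree) +
  (if 4 * A.coeff (4 * N) ^ 3 + 27 * B.coeff (6 * N) ^ 2 ≠ 0 then 0
    else if A.coeff (4 * N) ≠ 0 then 1 else 2)

/-- `Q` is the Frobenius polynomial of `y ^ 2 = x ^ 3 + A(t) x + B(t)`: `IsFrob N A B Q`; and if the
equation is minimal at all places and the discriminant is not zero, then the degree of `Q` is the
degree of the conductor minus `4` and all roots of `Q` have absolute value `q`. -/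
structure IsFrobC (N : ℕ) (A B : F[X]) (Q : ℤ[X]) : Prop extends IsFrob N A B Q where
  natDegree_eq : Min N A B → 4 * A ^ 3 + 27 * B ^ 2 ≠ 0 → Q.natDegree + 4 = condDeg N A B
  norm_eq : Min N A B → 4 * A ^ 3 + 27 * B ^ 2 ≠ 0 → ∀ b : ℂ, aeval b Q = 0 → ‖b‖ = Fintype.card F

variable (F) in
open Classical in
/-- The pairs `(A, B)` with `deg A ≤ 4 n + e`, `deg B ≤ 6 n + e` which are not of the form
`(a d ^ 4, b d ^ 6)` with constants `a`, `b`. -/
noncomputable def fam (e n : ℕ) : Finset (F[X] × F[X]) :=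
  (PN F (4 * n + e + 1) ×ˢ PN F (6 * n + e + 1)).filter (fun p => ¬ Const p.1 p.2)

end

open Classical in
/-- For large `n` the sum of the analytic ranks is at most `(11 / 6 + δ) q ^ (10 n + 2 + 2 e)`, and
at least `(1 / 12 + k / 4) q ^ (10 n + 2 + 2 e)` of the pairs have minimal equation, nonzero discriminant and
analytic rank at most `1`; `k = (1 - 2 / q) / q` for `e = 0` and `k = (1 - 1 / q) ^ 2` for `e = 1`. -/
theorem result (F : Type) [Field F] [Fintype F] (h2 : (2 : F) ≠ 0) (h3 : (3 : F) ≠ 0)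
    (δ : ℝ) (hδ : 0 < δ) :
    ∃ n₀ : ℕ, ∀ n : ℕ, n₀ ≤ n → ∀ e : ℕ, e ≤ 1 → ∀ Q : F[X] → F[X] → ℤ[X],
      (∀ p ∈ fam F e n, IsFrobC (n + e) p.1 p.2 (Q p.1 p.2)) →
      (∑ p ∈ fam F e n, ((ord F (Q p.1 p.2) : ℕ) : ℝ) ≤
          (11 / 6 + δ) * (Fintype.card F : ℝ) ^ (10 * n + 2 + 2 * e)) ∧
        (1 / 12 + (if e = 0 then (1 - 2 / (Fintype.card F : ℝ)) / (Fintype.card F : ℝ)
            else (1 - 1 / (Fintype.card F : ℝ)) ^ 2) / 4) *
            (Fintype.card F : ℝ) ^ (10 * n + 2 + 2 * e) ≤
          (((fam F e n).filter (fun p => FinMin p.1 p.2 ∧ (e = 0 → Min n p.1 p.2) ∧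
            4 * p.1 ^ 3 + 27 * p.2 ^ 2 ≠ 0 ∧ ord F (Q p.1 p.2) ≤ 1)).card : ℝ) := by
  obtain ⟨n₀, h₀⟩ := Pool.Agent.Helper97.AS3.final F h2 h3 δ hδ
  refine ⟨n₀, fun n hn e he Q hQ => ?_⟩
  have h1 := h₀ n hn e he Q (fun p hp => by
    have h := hQ p hp
    exact ⟨h.toIsFrob, h.natDegree_eq, h.norm_eq⟩)
  refine ⟨h1.1, ?_⟩
  have h4 : Pool.Agent.Helper97.AS3.dens F e =
      (if e = 0 then (1 - 2 / (Fintype.card F : ℝ)) / (Fintype.card F : ℝ)
        else (1 - 1 / (Fintype.card F : ℝ)) ^ 2) := by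
    unfold Pool.Agent.Helper97.AS3.dens
    split_ifs
    · ring
    · rfl
  rw [← h4]
  exact h1.2

end Pool.Agent.Results.MP_8ac872_ag.AverageRank
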