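import Pool.Agent.Helper96.PS.Final

/-!
# In every genus a positive proportion of the 2-Selmer groups over `F_q(t)` is trivial

`F` is a finite field of odd characteristic, `K = F(t)`, `g ≥ 1`. The box `Box F g n` consists of
the monic polynomials `f = x ^ (2 g + 1) + a_1 x ^ (2 g) + ... + a_(2 g + 1)` over `F[t]` with
`deg a_i ≤ i n`; each separable `f` gives a hyperelliptic curve `C : y ^ 2 = f(x)` over `K` of genus
`g` with a rational point at infinity, that is a surface fibred over the projective line.

The 2-Selmer group of the Jacobian `J` of `C`: let `L = K[x] / (f)`. An element `α` of `Lˣ` represents a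
class of `Sel_2(J)` iff for every place `v` of `K` its image in `(K_v[x] / (f))ˣ` lies in the image of
`J(K_v)` under the `x - T` map, which is the subgroup `LocIm` generated by the squares and by the
classes `∏ (x_j - θ) = (-1) ^ m U(θ)` of the effective divisors `U(x) = 0, y = V(x)` of degree `m`
prime to the Weierstrass points (Mumford's representation; `U ∣ V ^ 2 - f`). The Selmer group is
trivial iff every such `α` is a square in `L`.

Theorem: there are `c > 0` and `n₀` such that for all `n ≥ n₀` at least `c #(Box F g n)` of the `f` in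
the box are separable with trivial 2-Selmer group.

Proof (all in Lean, see `Pool/Agent/Helper96/PS`): for a regular plane curve `f(x, t) = 0` the
everywhere unramified classes of square norm are symmetric pencils on vector bundles on the
projective line; counting them (with a distinguished local condition at `k` places) shows that for
most `f` no nontrivial class is locally trivial at `k` given places; a quadratic twist by a product
of some of these places then kills the Selmer group, by a reciprocity law proved with Lagrangian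
subspaces; pigeonhole over the `2 ^ k` twists.

Joint work: helper96 (plan, proof on paper, definitions, statements), helper72 (referee), and helpers 2, 4, 8,
9, 11, 12, 14, 15, 19, 21, 23, 25, 27, 34, 40, 41, 44, 45, 47, 51, 52, 54, 64, 66, 67, 72, 73, 75, 91
and others (modules PS-01 to PS-70).
-/

set_option autoImplicit false

open Polynomial IsDedekindDomain

namespace Pool.Agent.Results.MP_8ac872_ag.PositiveProportion

/-- `f` as a polynomial over `F(t)` -/
noncomputable abbrev fK {F : Type*} [Field F] (f : F[X][X]) : (RatFunc F)[X] :=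
  f.map (algebraMap F[X] (RatFunc F))

/-- The image of the divisor classes of the curve `y² = f(x)` over the field `M` in the units of
`M[x]/(f)` under the `x - T` map: the subgroup generated by the squares and by the classes
`∏ (x_j - θ) = (-1)^m U(θ)` of the divisors `U(x) = 0, y = V(x)`, `m = deg U`, prime to `f`. -/
noncomputable def LocIm {M : Type*} [Field M] (f : M[X]) : Subgroup (AdjoinRoot f)ˣ :=
  Subgroup.closure {a | (∃ b, a = b ^ 2) ∨ ∃ U V : M[X], U.Monic ∧ IsCoprime U f ∧
    U ∣ V ^ 2 - f ∧ (a : AdjoinRoot f) = AdjoinRoot.mk f ((-1) ^ U.natDegree * U)}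

/-- base change of `K[x]/(f)` to `M[x]/(f)` on units -/
noncomputable def bc {K : Type*} (M : Type*) [Field K] [Field M] [Algebra K M] (f : K[X]) :
    (AdjoinRoot f)ˣ →* (AdjoinRoot (f.map (algebraMap K M)))ˣ :=
  Units.map (AdjoinRoot.map (algebraMap K M) f (f.map (algebraMap K M)) dvd_rfl).toMonoidHom

/-- over the extension field `M` of `K`, `α` is in the image of the divisor classes of
`y² = f(x)` -/
def LocSel {K : Type*} (M : Type*) [Field K] [Field M] [Algebra K M] (f : K[X])
    (α : (AdjoinRoot f)ˣ) : Prop :=
  bc M f α ∈ LocIm (f.map (algebraMap K M))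

open Classical in
/-- `α` is in the image of the divisor classes of `y² = f(x)` over every completion of
`F(t)`: it represents an element of the 2-Selmer group of the Jacobian. -/
def IsSel {F : Type*} [Field F] (f : (RatFunc F)[X]) (α : (AdjoinRoot f)ˣ) : Prop :=
  (∀ v : HeightOneSpectrum F[X], LocSel (v.adicCompletion (RatFunc F)) f α) ∧
    LocSel (RatFunc.CompletionAtInfty F) f α

/-- The 2-Selmer group of the Jacobian of `y² = f(x)` is trivial. -/
def TrivialSelmer {F : Type*} [Field F] (f : F[X][X]) : Prop :=
  ∀ α : (AdjoinRoot (fK f))ˣ, IsSel (fK f) α → ∃ β, α = β ^ 2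

/-- monic polynomials of degree `2g+1` in `x`, the coefficient of `x^j` of degree `≤ (2g+1-j) n`
in `t` -/
def Box (F : Type*) [Field F] (g n : ℕ) : Set F[X][X] :=
  {f | f.Monic ∧ f.natDegree = 2 * g + 1 ∧
    ∀ j, j ≤ 2 * g → (f.coeff j).natDegree ≤ (2 * g + 1 - j) * n}

private theorem locIm_eq {M : Type*} [Field M] (f : M[X]) :
    Pool.Agent.Helper96.PS.LocIm f 1 = LocIm f := by
  unfold Pool.Agent.Helper96.PS.LocIm LocIm
  simp only [map_one, one_mul, map_pow, map_neg]

private theorem locSel_iff {K : Type*} (M : Type*) [Field K] [Field M] [Algebra K M] (f : K[X])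
    (α : (AdjoinRoot f)ˣ) : Pool.Agent.Helper96.PS.LocSel M f 1 α ↔ LocSel M f α := by
  unfold Pool.Agent.Helper96.PS.LocSel LocSel
  rw [map_one, locIm_eq]
  rfl

private theorem isSel_iff {F : Type*} [Field F] (f : (RatFunc F)[X]) (α : (AdjoinRoot f)ˣ) :
    Pool.Agent.Helper96.PS.IsSel f 1 α ↔ IsSel f α := by
  unfold Pool.Agent.Helper96.PS.IsSel IsSel
  constructor
  · rintro ⟨h1, h2⟩
    exact ⟨fun v => (locSel_iff _ f α).1 (h1 v), (locSel_iff _ f α).1 h2⟩
  · rintro ⟨h1, h2⟩
    exact ⟨fun v => (locSel_iff _ f α).2 (h1 v), (locSel_iff _ f α).2 h2⟩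

private theorem trivialSelmer_iff {F : Type*} [Field F] (f : F[X][X]) :
    Pool.Agent.Helper96.PS.TrivialSelmer f ↔ TrivialSelmer f := by
  unfold Pool.Agent.Helper96.PS.TrivialSelmer TrivialSelmer
  constructor
  · intro h α hα
    exact h α ((isSel_iff _ α).2 hα)
  · intro h α hα
    exact h α ((isSel_iff _ α).1 hα)

/-- In every genus a positive proportion of the hyperelliptic curves over `F_q(t)` with a rational
Weierstrass point has trivial 2-Selmer group. -/
theorem result (F : Type*) [Field F] [Finite F] (h2 : (2 : F) ≠ 0) (g : ℕ) (hg : 1 ≤ g) :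
    ∃ c : ℝ, 0 < c ∧ ∃ n₀ : ℕ, ∀ n, n₀ ≤ n → c * (Box F g n).ncard ≤
      ({f | f ∈ Box F g n ∧ (fK f).Separable ∧ TrivialSelmer f}.ncard : ℝ) := by
  obtain ⟨c, hc, n₀, h⟩ := Pool.Agent.Helper96.PS.main F h2 hg
  refine ⟨c, hc, n₀, fun n hn => ?_⟩
  have e : {f | f ∈ Box F g n ∧ (fK f).Separable ∧ TrivialSelmer f} =
      {f | f ∈ Pool.Agent.Helper96.PS.Box F g n ∧ (Pool.Agent.Helper96.PS.fK f).Separable ∧
        Pool.Agent.Helper96.PS.TrivialSelmer f} := by
    ext f
    simp only [Set.mem_ofPred_eq]
    rw [trivialSelmer_iff f]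
    rfl
  rw [e]
  exact h n hn

end Pool.Agent.Results.MP_8ac872_ag.PositiveProportion
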