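import Pool.Agent.Helper31.TT.Final

/-!
# The Tate conjecture in towers of coverings of prime power degree

`F` is a finite field. Let `V`, `W` be affine varieties over `F` and let `c`, `P` be integral polynomials, `P` monic, such that
`#V - #W = c(q ^ n) + p_n(P)` over the extension of degree `n` of `F`, for all `n ≥ 1` (`p_n` = sum of the `n`-th powers of
the complex roots). `B` is an auxiliary monic integral polynomial (`X - 1`, or the polynomial of the Frobenius eigenvalues
of a fixed variety), and `R` is a monic integral polynomial such that, for every root `α` of `P`, every root `u` of `B` and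
every `n > 0` with `φ(n) ≤ (deg P + 1) deg B`, some power of `(α u) ^ (2 n M)` is a root of `R`.

(1) Let `ℓ` be a prime such that `R` has no nonzero root modulo `ℓ`. Let `F'` be any finite extension of `F` of degree
`m ∣ M (ℓ - 1) ℓ ^ a` with `ℓ ∣ |F'| - 1`, and let `V'`, `W'` be the tops of towers of `k` Galois coverings of
degree `ℓ` over `V`, `W` (over `F'`), with `#V' - #W' = c'(|F'| ^ n) + p_n(Q)`. Then for every root `u` of `B` at
most `ℓ ^ k c(1) - c'(1)` roots `z` of `Q` are such that `z u ^ m` is supersingular. For
`c(1) = c'(1) = 0` there are none.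

(2) If `R` has no nonzero real root then the primes `ℓ` in (1) have a positive lower Dirichlet density.

Examples. `V` the total space of an elliptic curve `E` over an affine curve `C`, `W` the product of `C` with the affine
line, `c = 0`, `P` the `L`-polynomial of `E` over `C`: if it has no supersingular root then for the primes `ℓ` in (1)
the `L`-polynomials of `E` over all the curves `C'` in towers of degree `ℓ ^ k` over `C` have none, so `E` has
rank `0` and the Tate conjecture holds for the elliptic surfaces over `C'` (for `C` the complement of a set of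
rational points in the projective line, `M = 1`: all the coverings of `C` of which the group is an `ℓ`-group).
-/

set_option autoImplicit false

namespace Pool.Agent.Results.MP_8ac872_ag.PrimePowerTowers

open Polynomial Pool.Agent.Helper31.TT

theorem result (F : Type) [Field F] [Fintype F] (V W : AffVar F) (c P B R : ℤ[X]) (M : ℕ)
    (hP : P.Monic) (hB : B.Monic) (hR : R.Monic) (hVW : Counts V W c P)
    (hroots : ∀ α ∈ croots P, ∀ u ∈ croots B, ∀ n : ℕ, 0 < n →
      n.totient ≤ (P.natDegree + 1) * B.natDegree →
      ∃ i : ℕ, (α * u) ^ (2 * n * M * i) ∈ croots R) :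
    (∀ ℓ : ℕ, ℓ.Prime → NoRootMod R ℓ →
      ∀ (F' : Type) [Field F'] [Fintype F'] [Algebra F F'], ℓ ∣ Fintype.card F' - 1 →
      (∃ a : ℕ, Module.finrank F F' ∣ M * (ℓ - 1) * ℓ ^ a) →
      ∀ (k : ℕ) (V' W' : AffVar F'), LTower ℓ (V.baseChange F') k V' →
      LTower ℓ (W.baseChange F') k W' → ∀ c' Q : ℤ[X], Q.Monic → Counts V' W' c' Q →
      ∀ u ∈ croots B, (ssCount (Fintype.card F') Q (u ^ Module.finrank F F') : ℤ) ≤
        max 0 ((ℓ : ℤ) ^ k * c.eval 1 - c'.eval 1)) ∧
    ((∀ x : ℝ, x ≠ 0 → (R.map (Int.castRingHom ℝ)).eval x ≠ 0) →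
      LowerDensity {ℓ | ℓ.Prime ∧ NoRootMod R ℓ}
        (1 / Module.finrank ℚ (R.map (Int.castRingHom ℚ)).SplittingField)) :=
  tt_final F V W c P B R M hP hB hR hVW hroots

end Pool.Agent.Results.MP_8ac872_ag.PrimePowerTowers
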