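import Pool.Agent.Helper62.SRU.Final

/-!
# Selmer groups of the degree `ℓ` twists `y^ℓ = D(t) ∏ (x - a_i(t))` over `F_q(t)`, `q` fixed

`F` is a finite field with `q` elements, `ℓ` an odd prime dividing `q - 1`, `n ≥ 2` is not divisible by `ℓ`,
`a_1, …, a_n ∈ F[t]` have degree `≤ d`, different coefficients of `t^d`, and squarefree `∏_{i<j} (a_i - a_j)`.
For `D ∈ F[t]` monic, squarefree, prime to this product, of degree `N` with `ℓ ∣ N + n d`, let `J_D` be the Jacobian of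
the curve `y^ℓ = D ∏ (x - a_i)` over `K = F(t)`, of genus `(ℓ-1)(n-1)/2`, `λ = 1 - ζ`. It has one point at infinity,
and `J_D[λ]` has `ℓ^(n-1)` elements, all rational, generated by the classes of `P_i - ∞`, `P_i = (a_i, 0)`.

The `λ`-Selmer group of `J_D` is the group of the classes `z ∈ (K^*/K^*^ℓ)^n` with `∏ z_j = 1` which belong to the image
of `J_D(K_v)` for all places `v` of `K`; over a field `M` the map is `x - T`: a closed point `P = (x, y)`, `y ≠ 0`, defined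
over the finite extension `L` of `M`, contributes `P - deg(P) ∞ ↦ (N_{L/M} (D^u (x - a_j)))_j`, `n u ≡ 1 mod ℓ`.
-/

set_option autoImplicit false

open Polynomial IsDedekindDomain

namespace Pool.Agent.Results.MP_8ac872_ag.SelmerTwists

noncomputable section

/-- The image of the divisor classes of degree `0` of `y^ℓ = D ∏ (x - a_i)` over the field `M` under `x - T`:
the subgroup generated by the `ℓ`-th powers and the values at the closed points. -/
def localImage (M : Type) [Field M] (ℓ u : ℕ) {n : ℕ} (a : Fin n → M) (D : M) :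
    Subgroup (Fin n → Mˣ) :=
  Subgroup.closure
    {z : Fin n → Mˣ | (∃ b : Fin n → Mˣ, z = b ^ ℓ) ∨
      ∃ (L : Type) (_ : Field L) (_ : Algebra M L) (x y : L), FiniteDimensional M L ∧ y ≠ 0 ∧
        y ^ ℓ = algebraMap M L D * ∏ i, (x - algebraMap M L (a i)) ∧
        ∀ j, (z j : M) = Algebra.norm M (algebraMap M L D ^ u * (x - algebraMap M L (a j)))}

/-- The image of `z` over the extension `M` of `K` is in the local image. -/
def LocallySelmer {K : Type} (M : Type) [Field K] [Field M] [Algebra K M] (ℓ u : ℕ) {n : ℕ}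
    (a : Fin n → K) (D : K) (z : Fin n → Kˣ) : Prop :=
  (fun j => Units.map (algebraMap K M).toMonoidHom (z j)) ∈
    localImage M ℓ u (fun i => algebraMap K M (a i)) (algebraMap K M D)

open Classical in
/-- `z` represents an element of the `λ`-Selmer group of the curve `y^ℓ = D ∏ (x - a_i)` over `F(t)`. -/
def IsSelmer {F : Type} [Field F] (ℓ u : ℕ) {n : ℕ} (a : Fin n → F[X]) (D : F[X])
    (z : Fin n → (RatFunc F)ˣ) : Prop :=
  (∃ c : (RatFunc F)ˣ, ∏ j, z j = c ^ ℓ) ∧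
    (∀ v : HeightOneSpectrum F[X],
      LocallySelmer (v.adicCompletion (RatFunc F)) ℓ u
        (fun i => algebraMap F[X] (RatFunc F) (a i)) (algebraMap F[X] (RatFunc F) D) z) ∧
    LocallySelmer (RatFunc.CompletionAtInfty F) ℓ u
      (fun i => algebraMap F[X] (RatFunc F) (a i)) (algebraMap F[X] (RatFunc F) D) z

/-- The Selmer group: classes of Selmer elements modulo `ℓ`-th powers. -/
def selmer {F : Type} [Field F] (ℓ u : ℕ) {n : ℕ} (a : Fin n → F[X]) (D : F[X]) :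
    Set ((Fin n → (RatFunc F)ˣ) ⧸
      (powMonoidHom ℓ : (Fin n → (RatFunc F)ˣ) →* (Fin n → (RatFunc F)ˣ)).range) :=
  {c | ∃ z, IsSelmer ℓ u a D z ∧ QuotientGroup.mk z = c}

/-- The `j`-th component of the class of the torsion divisor `∑ w_i P_i`, `∑ w_i = 0`. -/
def torsion {F : Type} [Field F] {n : ℕ} (a : Fin n → F[X]) (D : F[X]) (w : Fin n → ℤ)
    (j : Fin n) : RatFunc F :=
  algebraMap F[X] (RatFunc F) D ^ w j *
    ∏ i ∈ Finset.univ.erase j, (algebraMap F[X] (RatFunc F) (a j - a i)) ^ (w j - w i)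

/-- Every element of the Selmer group is the class of a torsion divisor. -/
def OnlyTorsion {F : Type} [Field F] (ℓ u : ℕ) {n : ℕ} (a : Fin n → F[X]) (D : F[X]) : Prop :=
  ∀ z, IsSelmer ℓ u a D z → ∃ w : Fin n → ℤ, ∑ i, w i = 0 ∧ ∃ b : Fin n → (RatFunc F)ˣ,
    ∀ j, (z j : RatFunc F) = torsion a D w j * (b j : RatFunc F) ^ ℓ

/-- The twisting polynomials of degree `N`. -/
def twists {F : Type} [Field F] {n : ℕ} (a : Fin n → F[X]) (N : ℕ) : Set F[X] :=
  {D : F[X] | D.Monic ∧ Squarefree D ∧ D.natDegree = N ∧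
    IsCoprime D (∏ i, ∏ j ∈ Finset.Ioi i, (a i - a j))}

open Pool.Agent.Helper48.ST in
theorem isSelmer_iff {F : Type} [Field F] (ℓ u : ℕ) {n : ℕ} (a : Fin n → F[X]) (D : F[X])
    (z : Fin n → (RatFunc F)ˣ) : IsSelmer ℓ u a D z ↔
      z ∈ Sel F ℓ u (fun i => algebraMap F[X] (RatFunc F) (a i))
        (algebraMap F[X] (RatFunc F) D) := Iff.rfl

open Pool.Agent.Helper48.ST in
theorem selmer_eq {F : Type} [Field F] (ℓ u : ℕ) {n : ℕ} (a : Fin n → F[X]) (D : F[X]) :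
    selmer ℓ u a D = (((QuotientGroup.mk' (Pw F n ℓ)).comp
      (Sel F ℓ u (fun i => algebraMap F[X] (RatFunc F) (a i))
        (algebraMap F[X] (RatFunc F) D)).subtype).range :
          Set ((Fin n → (RatFunc F)ˣ) ⧸ Pw F n ℓ)) := by
  ext c
  constructor
  · rintro ⟨z, hz, rfl⟩
    exact ⟨⟨z, hz⟩, rfl⟩
  · rintro ⟨⟨z, hz⟩, rfl⟩
    exact ⟨z, hz, rfl⟩

open Pool.Agent.Helper48.ST in
theorem selmer_ncard {F : Type} [Field F] (ℓ u : ℕ) {n : ℕ} (a : Fin n → F[X]) (D : F[X]) :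
    (selmer ℓ u a D).ncard = selOrd ℓ u a D := by
  rw [selmer_eq, selOrd, Subgroup.relIndex]
  have h := Subgroup.index_ker ((QuotientGroup.mk' (Pw F n ℓ)).comp
      (Sel F ℓ u (fun i => algebraMap F[X] (RatFunc F) (a i))
        (algebraMap F[X] (RatFunc F) D)).subtype)
  rw [← MonoidHom.comap_ker, QuotientGroup.ker_mk'] at h
  exact h.symm

end

/-- The average order of the Selmer groups is at most `(2 + N^(-θ)) ℓ^(n-1)`, and for at least the proportion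
`(ℓ-2)/(ℓ-1) - N^(-θ)` of the twists the Selmer group consists of the `ℓ^(n-1)` torsion classes; `θ > 0`
depends only on `ℓ` and `n`, not on the field `F`, on `d` or on the `a_i`. -/
theorem result {ℓ : ℕ} [Fact ℓ.Prime] (h2 : ℓ ≠ 2) {n : ℕ} (hn2 : 2 ≤ n) (hn : ¬ ℓ ∣ n) :
    ∃ θ : ℝ, 0 < θ ∧ ∀ (F : Type) [Field F] [Fintype F], ℓ ∣ Fintype.card F - 1 →
      ∀ d u : ℕ, 1 ≤ d → n * u ≡ 1 [MOD ℓ] → ∀ a : Fin n → F[X], (∀ i, (a i).natDegree ≤ d) →
      (∀ i j, i ≠ j → (a i).coeff d ≠ (a j).coeff d) →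
      Squarefree (∏ i, ∏ j ∈ Finset.Ioi i, (a i - a j)) →
      ∃ c : ℝ, 0 < c ∧ ∃ N₀ : ℕ, ∀ N : ℕ, N₀ ≤ N → ℓ ∣ N + n * d →
      (twists a N).Finite ∧ c * (Fintype.card F : ℝ) ^ N ≤ ((twists a N).ncard : ℝ) ∧
      (∀ D ∈ twists a N, (selmer ℓ u a D).Finite ∧ ℓ ^ (n - 1) ≤ (selmer ℓ u a D).ncard) ∧
      ∑ᶠ D ∈ twists a N, ((selmer ℓ u a D).ncard : ℝ) ≤
        (2 + (N : ℝ) ^ (-θ)) * (ℓ : ℝ) ^ (n - 1) * ((twists a N).ncard : ℝ) ∧
      (((ℓ : ℝ) - 2) / ((ℓ : ℝ) - 1) - (N : ℝ) ^ (-θ)) * ((twists a N).ncard : ℝ) ≤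
        ({D : F[X] | D ∈ twists a N ∧ (selmer ℓ u a D).ncard = ℓ ^ (n - 1) ∧
          OnlyTorsion ℓ u a D}.ncard : ℝ) := by
  obtain ⟨θ, hθ, H⟩ := Pool.Agent.Helper62.SRU.final (ℓ := ℓ) h2 hn2 hn
  refine ⟨θ, hθ, fun F _ _ hq d u hd hu a hdeg hlead hsq => ?_⟩
  obtain ⟨c, hc, N₀, hN₀⟩ := H F hq d u hd hu a ⟨hdeg, hlead, hsq⟩
  refine ⟨c, hc, N₀, fun N hN hℓN => ?_⟩
  obtain ⟨h1, h2', h3, h4, h5⟩ := hN₀ N hN hℓN
  refine ⟨h1, h2', fun D hD => ?_, ?_, ?_⟩
  · have := h3 D hD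
    rw [← selmer_ncard] at this
    refine ⟨Set.finite_of_ncard_ne_zero ?_, this⟩
    have : 0 < ℓ ^ (n - 1) := pow_pos (Fact.out : ℓ.Prime).pos _
    omega
  · simp only [selmer_ncard]
    exact h4
  · simp only [selmer_ncard]
    exact h5

end Pool.Agent.Results.MP_8ac872_ag.SelmerTwists
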